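import Pool.Agent.Lib.MP_5939ed_al.NT.Model

/-!
The tuple attached to a position function is far from every finite action.
-/

set_option autoImplicit false

namespace Pool.Agent.Lib.MP_5939ed_al.NT

open Equiv

theorem comm_aw {Y : Type} [Finite Y] {n m r : ℕ} (hr : n ^ m ≡ 1 [MOD r]) (hn : 0 < n)
    {U S B : Perm Y} (h1 : S⁻¹ * U * S = U ^ n) (h2 : U⁻¹ * B * U = B ^ n) (i t : ℕ) {y : Y}
    (hy : (cj S B i ^ r) y = y) (hy' : ((aw S B i)⁻¹ * cj S B 1 ^ r * aw S B i) y = y) :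
    ((U ^ m) ^ t) (aw S B i y) = aw S B i (((U ^ m) ^ t) y) := by
  rw [Perm.mul_apply, Perm.mul_apply, Perm.inv_eq_iff_eq] at hy'
  have e1 : ((U ^ m) ^ t) (cj S B 1 (aw S B i y)) = cj S B 1 (((U ^ m) ^ t) (aw S B i y)) :=
    comm_at hr hn h1 h2 1 t hy'
  have e2 : ((U ^ m) ^ t) (cj S B i y) = cj S B i (((U ^ m) ^ t) y) :=
    comm_at hr hn h1 h2 i t hy
  have e3 : cj S B 1 (aw S B i y) = cj S B i y := by simp [aw]
  rw [e3, e2] at e1
  nth_rewrite 2 [aw]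
  rw [Perm.mul_apply, e1]
  simp

/-- the words that are used -/
def words (m r : ℕ) : List (FreeGroup (Fin 3)) :=
  FreeGroup.of 0 ^ m :: [0, 2, 3].flatMap fun i =>
    [aw (.of 1) (.of 2) i, cj (.of 1) (.of 2) i ^ r,
      (aw (.of 1) (.of 2) i)⁻¹ * cj (.of 1) (.of 2) 1 ^ r * aw (.of 1) (.of 2) i]

theorem far {n : ℕ} (hn : 0 < n) (D : Fib n) {h : ℝ} (h0 : 0 < h) : ∃ ε : ℝ, 0 < ε ∧
    ∀ (p : ℕ) [Fact p.Prime] (G P : Type) [Group G] [Finite G] [Finite P] [Nonempty P]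
      (E : ZMod p → G) (_ : ∀ a b, E (a + b) = E a * E b) (ν μ : (ZMod p)ˣ)
      (_ : (D.m : ZMod p) ≠ 0) (x y : G)
      (_ : ∀ J : Set G, 2 * J.ncard ≤ Nat.card G →
        h * J.ncard ≤ {z ∈ J | z * x ∉ J}.ncard + {z ∈ J | z * y ∉ J}.ncard)
      (ℓ : P → G → ZMod p) (_ : ∀ f t a, ℓ f (E t * a) = ℓ f a + t)
      (Y : Type) [Finite Y] (ι : ZZ P G D.F p → Y) (_ : Function.Injective ι)
      (τ : Fin 3 → Perm Y), (τ 1)⁻¹ * τ 0 * τ 1 = τ 0 ^ n → (τ 0)⁻¹ * τ 2 * τ 0 = τ 2 ^ n →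
      ∃ i, ε * Nat.card (ZZ P G D.F p) ≤ dd ι (gens D E ν x y (lab ℓ μ) i) (τ i) := by
  obtain ⟨c, hc⟩ := dd_words (words D.m D.r)
  have : Nonempty D.F := ⟨D.o⟩
  have hF : (0 : ℝ) < Nat.card D.F := by exact_mod_cast Nat.card_pos
  refine ⟨h / ((12 + 6 * h) * (24 * (c + 1) * Nat.card D.F)), by positivity, ?_⟩
  intro p _ G P _ _ _ _ E hE ν μ hm x y hex ℓ hℓ Y _ ι hι τ r1 r2
  by_contra hcon
  push Not at hcon
  set σ := gens D E ν x y (lab ℓ μ) with hσ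
  set e := dd ι (σ 0) (τ 0) + dd ι (σ 1) (τ 1) + dd ι (σ 2) (τ 2) with he
  have h1 := hc _ Y ι σ τ e fun i => by fin_cases i <;> simp only [he] <;> simp <;> omega
  obtain ⟨w, hw⟩ := exists_window (fun q : (P × (ZMod p)ˣ) × G =>
    ((q, 0, 0, D.o) : ZZ P G D.F p)) (fun q q' e => congrArg Prod.fst e)
    {z | ∃ v ∈ words D.m D.r, ι (FreeGroup.lift σ v z) ≠ FreeGroup.lift τ v (ι z)}
  set B := {a : G | (((w, a), 0, 0, D.o) : ZZ P G D.F p) ∈
    {z | ∃ v ∈ words D.m D.r, ι (FreeGroup.lift σ v z) ≠ FreeGroup.lift τ v (ι z)}} with hB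
  have hBs : (12 + 6 * h) * B.ncard < h * Nat.card G := by
    have hW : (0 : ℝ) < Nat.card (P × (ZMod p)ˣ) := by exact_mod_cast Nat.card_pos
    have e1 : (Nat.card (ZZ P G D.F p) : ℝ)
        = Nat.card (P × (ZMod p)ˣ) * Nat.card G * (4 * (2 * Nat.card D.F)) := by
      rw [Nat.card_prod, Nat.card_prod _ G, Nat.card_prod (ZMod 4), Nat.card_prod (ZMod 2),
        Nat.card_zmod, Nat.card_zmod]
      push_cast; ring
    have e2 : (Nat.card (P × (ZMod p)ˣ) : ℝ) * B.ncard ≤ (c + 1) * e := by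
      exact_mod_cast (hw.trans h1).trans (Nat.mul_le_mul_right _ (Nat.le_succ c))
    have e3 : (e : ℝ) < 3 * (h / ((12 + 6 * h) * (24 * (c + 1) * Nat.card D.F))
        * Nat.card (ZZ P G D.F p)) := by
      rw [he]; push_cast
      linarith [hcon 0, hcon 1, hcon 2]
    have e4 : (12 + 6 * h) * ((c + 1) * (3 * (h / ((12 + 6 * h) * (24 * (c + 1) * Nat.card D.F))
        * Nat.card (ZZ P G D.F p)))) = Nat.card (P × (ZMod p)ˣ) * (h * Nat.card G) := by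
      rw [e1]; field_simp; ring
    refine lt_of_mul_lt_mul_left ?_ hW.le
    rw [← e4, mul_left_comm]
    exact mul_lt_mul_of_pos_left (e2.trans_lt (mul_lt_mul_of_pos_left e3 (by positivity)))
      (by positivity)
  have good : ∀ a ∉ B, ∀ v ∈ words D.m D.r, FreeGroup.lift τ v (ι ((w, a), 0, 0, D.o))
      = ι (FreeGroup.lift σ v ((w, a), 0, 0, D.o)) := fun a ha v hv => by
    by_contra hne
    exact ha ⟨v, hv, fun e => hne e.symm⟩
  have s1 : σ 1 = mS D ν := rfl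
  have s2 : σ 2 = mB D x y (lab ℓ μ) := rfl
  have gi : ∀ i ∈ [0, 2, 3], ∀ a ∉ B, aw (τ 1) (τ 2) i (ι ((w, a), 0, 0, D.o))
      = ι (aw (mS D ν) (mB D x y (lab ℓ μ)) i ((w, a), 0, 0, D.o)) ∧ ∀ t : ℕ,
      ((τ 0 ^ D.m) ^ t) (aw (τ 1) (τ 2) i (ι ((w, a), 0, 0, D.o)))
        = aw (τ 1) (τ 2) i (((τ 0 ^ D.m) ^ t) (ι ((w, a), 0, 0, D.o))) := by
    intro i hi a ha
    have mem : ∀ v ∈ [aw (.of 1) (.of 2) i, cj (.of 1) (.of 2) i ^ D.r,
        (aw (.of 1) (.of 2) i)⁻¹ * cj (.of 1) (.of 2) 1 ^ D.r * aw (.of 1) (.of 2) i],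
        v ∈ words D.m D.r := fun v hv => List.mem_cons_of_mem _ (List.mem_flatMap.2 ⟨i, hi, hv⟩)
    have g1 := good a ha _ (mem _ List.mem_cons_self)
    have g2 := good a ha _ (mem _ (List.mem_cons_of_mem _ List.mem_cons_self))
    have g3 := good a ha _ (mem _ (List.mem_cons_of_mem _ (List.mem_cons_of_mem _
      List.mem_cons_self)))
    simp only [map_mul, map_inv, map_pow, map_aw, map_cj, FreeGroup.lift_apply_of, s1, s2,
      cj_pow _ _ _ _ (mB_pow D), mul_one, inv_mul_cancel, Perm.one_apply] at g1 g2 g3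
    exact ⟨g1, fun t => comm_aw D.hr hn r1 r2 i t g2 g3⟩
  have gU : ∀ a ∉ B, (τ 0 ^ D.m) (ι ((w, a), 0, 0, D.o))
      = ι ((w, E (D.m * w.2) * a), 0, 0, D.o) := fun a ha => by
    have g1 := good a ha _ List.mem_cons_self
    rw [map_pow, map_pow, FreeGroup.lift_apply_of, FreeGroup.lift_apply_of] at g1
    rw [g1, show σ 0 = mU D E from rfl, mU_pow, E_pow hE,
      Perm.pow_apply_eq_self_of_apply_eq_self D.Mo]
  set t : ℕ := (((p / 2 : ℕ) : ZMod p) * ((D.m : ZMod p) * μ)⁻¹).val with ht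
  have hBn : (0 : ℝ) ≤ B.ncard := Nat.cast_nonneg _
  have hr := rigid h0 hex (fun a => ι ((w, a), 0, 0, D.o)) (aw (τ 1) (τ 2) 2) (aw (τ 1) (τ 2) 3)
    (τ 0 ^ D.m) B (by nlinarith)
    (fun a ha => by rw [(gi 2 (by simp) a ha).1, word_two])
    (fun a ha => by rw [(gi 3 (by simp) a ha).1, word_three]) gU
    (fun a ha => (gi 2 (by simp) a ha).2) (fun a ha => (gi 3 (by simp) a ha).2) t
  set g := E (D.m * w.2) ^ t with hg
  have hL : ∀ s a, ℓ w.1 (E (s * (w.2 * μ⁻¹).val) * a) * (μ * w.2⁻¹).val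
      = ℓ w.1 a * (μ * w.2⁻¹).val + s := fun s a => by
    rw [hℓ, add_mul, mul_assoc, ← Units.val_mul]
    congr 1
    rw [show w.2 * μ⁻¹ * (μ * w.2⁻¹) = 1 by group, Units.val_one, mul_one]
  have hg' : g = E (((p / 2 : ℕ) : ZMod p) * (w.2 * μ⁻¹).val) := by
    rw [hg, E_pow hE, ht, ZMod.natCast_zmod_val, Units.val_mul, Units.val_inv_eq_inv_val]
    congr 1
    have := μ.ne_zero
    field_simp
  have f1 := fib_le (fun a => ℓ w.1 a * (μ * w.2⁻¹).val)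
    (fun s => ⟨_, mul_right_injective _, hL s⟩)
    (Finset.univ.filter fun y : ZMod p => half (y + ((p / 2 : ℕ) : ZMod p)) = half y)
  have f2 := card_half p
  set D1 := {a | ℓ w.1 a * (μ * w.2⁻¹).val ∈
    Finset.univ.filter fun y : ZMod p => half (y + ((p / 2 : ℕ) : ZMod p)) = half y} with hD1
  set D2 := {a | ((τ 0 ^ D.m) ^ t) (ι ((w, a), 0, 0, D.o)) ≠ ι ((w, g * a), 0, 0, D.o)} with hD2
  have f3 : 3 * D1.ncard ≤ 2 * Nat.card G := by
    refine Nat.le_of_mul_le_mul_left ?_ (Fact.out : p.Prime).pos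
    nlinarith [Nat.mul_le_mul_right (Nat.card G) f2]
  have f4 : Nat.card G ≤ (D1.ncard + D2.ncard) + (B.ncard + B.ncard) := by
    nth_rewrite 2 [← ncard_pre (Equiv.mulLeft g) B]
    rw [← Set.ncard_univ]
    refine (ncard_le_add (t := D1 ∪ D2) (u := B ∪ Equiv.mulLeft g ⁻¹' B) fun a _ => ?_).trans
      (add_le_add (Set.ncard_union_le _ _) (Set.ncard_union_le _ _))
    by_contra hb
    simp only [Set.mem_union, not_or, Set.mem_preimage, Equiv.coe_mulLeft] at hb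
    obtain ⟨⟨b1, b2⟩, b3, b4⟩ := hb
    have b2' : ((τ 0 ^ D.m) ^ t) (ι ((w, a), 0, 0, D.o)) = ι ((w, g * a), 0, 0, D.o) :=
      not_not.1 b2
    have k1 := gi 0 (by simp) a b3
    have k2 := (gi 0 (by simp) _ b4).1
    have k3 : lab ℓ μ w (g * a) = 0 ↔ lab ℓ μ w a = 0 := by
      rw [← word_zero D (ν := ν) (x := x) (y := y), ← word_zero D (ν := ν) (x := x) (y := y),
        ← hι.eq_iff, ← hι.eq_iff, ← k2, ← k1.1, ← b2', ← k1.2, EmbeddingLike.apply_eq_iff_eq]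
    refine b1 (Finset.mem_filter.2 ⟨Finset.mem_univ _, ?_⟩)
    rw [lab, lab, hg', hL] at k3
    revert k3
    generalize half _ = u
    generalize half _ = v
    revert u v
    decide
  have f5 := (Nat.cast_le (α := ℝ)).2 f3
  have f6 := (Nat.cast_le (α := ℝ)).2 f4
  simp only [Nat.cast_add, Nat.cast_mul, Nat.cast_ofNat] at f5 f6
  nlinarith [mul_le_mul_of_nonneg_left f5 h0.le, mul_le_mul_of_nonneg_left f6 h0.le]

end Pool.Agent.Lib.MP_5939ed_al.NT
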