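import Mathlib

/-!
Counting lemmas, trajectories of words, and rigidity over an expander.
-/

set_option autoImplicit false

namespace Pool.Agent.Lib.MP_5939ed_al.NT

open Equiv

theorem ncard_pre {Z Z' : Type} (e : Z ≃ Z') (s : Set Z') : (e ⁻¹' s).ncard = s.ncard := by
  rw [← e.image_symm_eq_preimage, Set.ncard_image_of_injective _ e.symm.injective]

theorem ncard_le_add {Z : Type} [Finite Z] {s t u : Set Z} (h : s ⊆ t ∪ u) :
    s.ncard ≤ t.ncard + u.ncard :=
  (Set.ncard_le_ncard h).trans (Set.ncard_union_le _ _)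

/-- the number of points where `β` does not extend `α` -/
noncomputable def dd {Z Y : Type} (ι : Z → Y) (α : Perm Z) (β : Perm Y) : ℕ :=
  {z | ι (α z) ≠ β (ι z)}.ncard

theorem dd_mul {Z Y : Type} [Finite Z] (ι : Z → Y) (α α' : Perm Z) (β β' : Perm Y) :
    dd ι (α * α') (β * β') ≤ dd ι α β + dd ι α' β' := by
  rw [dd, dd, dd, ← ncard_pre α' {z | ι (α z) ≠ β (ι z)}]
  refine ncard_le_add fun z hz => ?_
  by_contra h
  simp only [Set.mem_union, Set.mem_preimage, Set.mem_ofPred_eq, not_or, not_not] at h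
  exact hz (by rw [Perm.mul_apply, Perm.mul_apply, h.1, h.2])

theorem dd_inv {Z Y : Type} [Finite Z] (ι : Z → Y) (α : Perm Z) (β : Perm Y) :
    dd ι α⁻¹ β⁻¹ ≤ dd ι α β := by
  rw [dd, dd, ← ncard_pre α⁻¹ {z | ι (α z) ≠ β (ι z)}]
  refine Set.ncard_le_ncard fun z hz h => hz ?_
  rw [Perm.eq_inv_iff_eq, ← h]
  simp

theorem dd_word (w : FreeGroup (Fin 3)) : ∃ c : ℕ, ∀ (Z Y : Type) [Finite Z] (ι : Z → Y)
    (σ : Fin 3 → Perm Z) (τ : Fin 3 → Perm Y) (E : ℕ), (∀ i, dd ι (σ i) (τ i) ≤ E) →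
    dd ι (FreeGroup.lift σ w) (FreeGroup.lift τ w) ≤ c * E := by
  induction w using FreeGroup.induction_on with
  | C1 => exact ⟨0, fun Z Y _ ι σ τ E _ => by simp [dd]⟩
  | of i => exact ⟨1, fun Z Y _ ι σ τ E h => by simpa using h i⟩
  | inv_of i _ =>
    exact ⟨1, fun Z Y _ ι σ τ E h => by simpa using (dd_inv ι _ _).trans (h i)⟩
  | mul x y hx hy =>
    obtain ⟨c, hc⟩ := hx
    obtain ⟨d, hd⟩ := hy
    refine ⟨c + d, fun Z Y _ ι σ τ E h => ?_⟩
    rw [map_mul, map_mul, add_mul]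
    exact (dd_mul ι _ _ _ _).trans (add_le_add (hc Z Y ι σ τ E h) (hd Z Y ι σ τ E h))

theorem dd_words (W : List (FreeGroup (Fin 3))) : ∃ c : ℕ, ∀ (Z Y : Type) [Finite Z] (ι : Z → Y)
    (σ : Fin 3 → Perm Z) (τ : Fin 3 → Perm Y) (E : ℕ), (∀ i, dd ι (σ i) (τ i) ≤ E) →
    {z | ∃ w ∈ W, ι (FreeGroup.lift σ w z) ≠ FreeGroup.lift τ w (ι z)}.ncard ≤ c * E := by
  induction W with
  | nil => exact ⟨0, fun Z Y _ ι σ τ E _ => by simp⟩
  | cons w W ih =>
    obtain ⟨c, hc⟩ := dd_word w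
    obtain ⟨d, hd⟩ := ih
    refine ⟨c + d, fun Z Y _ ι σ τ E h => ?_⟩
    rw [add_mul]
    refine le_trans (ncard_le_add fun z hz => ?_) (add_le_add (hc Z Y ι σ τ E h) (hd Z Y ι σ τ E h))
    obtain ⟨v, hv, hz⟩ := hz
    rcases List.mem_cons.1 hv with rfl | hv
    · exact Or.inl hz
    · exact Or.inr ⟨v, hv, hz⟩

/-- some window meets a set in at most the average number of points -/
theorem exists_window {W G Z : Type} [Finite W] [Nonempty W] [Finite G] [Finite Z]
    (j : W × G → Z) (hj : Function.Injective j) (B : Set Z) :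
    ∃ w, Nat.card W * {x | j (w, x) ∈ B}.ncard ≤ B.ncard := by
  classical
  have := Fintype.ofFinite W
  have := Fintype.ofFinite G
  have h1 : ∑ w, {x | j (w, x) ∈ B}.ncard = (j ⁻¹' B).ncard := by
    simp only [Set.ncard_eq_toFinset_card', Set.toFinset_ofPred, Set.preimage, Finset.card_filter,
      Fintype.sum_prod_type]
  have h2 : (j ⁻¹' B).ncard ≤ B.ncard :=
    Set.ncard_le_ncard_of_injOn j (fun _ h => h) hj.injOn
  obtain ⟨w, -, hw⟩ := Finset.exists_le_of_sum_le (s := Finset.univ) Finset.univ_nonempty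
    (f := fun w => Nat.card W * {x | j (w, x) ∈ B}.ncard) (g := fun _ => B.ncard) (by
      rw [← Finset.mul_sum, h1, Finset.sum_const, Finset.card_univ, Nat.card_eq_fintype_card,
        smul_eq_mul]
      exact Nat.mul_le_mul_left _ h2)
  exact ⟨w, hw⟩

theorem inj_le {Z : Type} [Finite Z] {p : ℕ} (H : ZMod p → Z → Z) (B : Set Z)
    (h : ∀ c c', ∀ z ∈ B, ∀ z' ∈ B, H c z = H c' z' → c = c' ∧ z = z') :
    p * B.ncard ≤ Nat.card Z := by
  have := Nat.card_le_card_of_injective (fun q : ZMod p × B => H q.1 q.2) fun q q' e => by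
    obtain ⟨e1, e2⟩ := h _ _ _ q.2.2 _ q'.2.2 e
    exact Prod.ext e1 (Subtype.ext e2)
  rwa [Nat.card_prod, Nat.card_zmod, Nat.card_coe_set_eq] at this

theorem union_le {Z ι : Type} [Finite Z] (s : Finset ι) (B : ι → Set Z) (p c : ℕ)
    (h : ∀ i ∈ s, p * (B i).ncard ≤ c) : p * {z | ∃ i ∈ s, z ∈ B i}.ncard ≤ s.card * c := by
  classical
  induction s using Finset.induction_on with
  | empty => simp
  | insert a s ha ih =>
    have h1 : {z | ∃ i ∈ insert a s, z ∈ B i}.ncard ≤ (B a).ncard + {z | ∃ i ∈ s, z ∈ B i}.ncard :=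
      ncard_le_add fun z ⟨i, hi, hz⟩ => by
        rcases Finset.mem_insert.1 hi with rfl | hi
        · exact Or.inl hz
        · exact Or.inr ⟨i, hi, hz⟩
    have h2 := h a (Finset.mem_insert_self _ _)
    have h3 := ih fun i hi => h i (Finset.mem_insert_of_mem hi)
    rw [Finset.card_insert_of_notMem ha]
    calc _ ≤ p * ((B a).ncard + {z | ∃ i ∈ s, z ∈ B i}.ncard) := Nat.mul_le_mul_left _ h1
      _ ≤ _ := by rw [mul_add, add_mul, one_mul]; omega

theorem fib_le {Z : Type} [Finite Z] {p : ℕ} (L : Z → ZMod p)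
    (h : ∀ t, ∃ sh : Z → Z, Function.Injective sh ∧ ∀ z, L (sh z) = L z + t)
    (D : Finset (ZMod p)) : p * {z | L z ∈ D}.ncard ≤ D.card * Nat.card Z := by
  choose sh h1 h2 using h
  have := union_le D (fun y => {z | L z = y}) p (Nat.card Z) fun y _ =>
    inj_le sh _ fun c c' z hz z' hz' e => by
      have e1 : c = c' := by
        have := congrArg L e
        rw [h2, h2, show L z = y from hz, show L z' = y from hz'] at this
        exact add_left_cancel this
      exact ⟨e1, h1 c (e1 ▸ e)⟩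
  simpa using this

/-- two tuples that agree step by step along a filtration agree on short words -/
theorem traj {Z Z' : Type} (σ : Fin 3 → Perm Z) (σ' : Fin 3 → Perm Z') (Ψ : Z → Z')
    (N : ℕ → Set Z) (k : ℕ)
    (step : ∀ j < k, ∀ z ∈ N j, ∀ g, (σ g z ∈ N (j + 1) ∧ Ψ (σ g z) = σ' g (Ψ z)) ∧
      ((σ g)⁻¹ z ∈ N (j + 1) ∧ Ψ ((σ g)⁻¹ z) = (σ' g)⁻¹ (Ψ z)))
    {z : Z} (hz : z ∈ N 0) (w : FreeGroup (Fin 3)) (hw : w.toWord.length ≤ k) :
    Ψ (FreeGroup.lift σ w z) = FreeGroup.lift σ' w (Ψ z) := by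
  have key : ∀ L : List (Fin 3 × Bool), L.length ≤ k →
      FreeGroup.lift σ (FreeGroup.mk L) z ∈ N L.length ∧
        Ψ (FreeGroup.lift σ (FreeGroup.mk L) z) = FreeGroup.lift σ' (FreeGroup.mk L) (Ψ z) := by
    intro L
    simp only [FreeGroup.lift_mk]
    induction L with
    | nil => exact fun _ => ⟨hz, rfl⟩
    | cons a L ih =>
      intro h
      rw [List.length_cons] at h
      obtain ⟨h1, h2⟩ := ih (by omega)
      obtain ⟨g, b⟩ := a
      simp only [List.map_cons, List.prod_cons, Perm.mul_apply, List.length_cons, ← h2]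
      cases b
      · exact (step _ (by omega) _ h1 g).2
      · exact (step _ (by omega) _ h1 g).1
  have := (key w.toWord hw).2
  rwa [FreeGroup.mk_toWord] at this

/-- a permutation whose powers commute with an almost expander stays close to a translation -/
theorem rigid {G Y : Type} [Group G] [Finite G] {h : ℝ} (h0 : 0 < h) {x y g : G}
    (hex : ∀ J : Set G, 2 * J.ncard ≤ Nat.card G →
      h * J.ncard ≤ {z ∈ J | z * x ∉ J}.ncard + {z ∈ J | z * y ∉ J}.ncard)
    (j : G → Y) (A1 A2 θ : Perm Y) (B : Set G)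
    (hB : (8 + 2 * h) * B.ncard ≤ h * Nat.card G)
    (a1 : ∀ z ∉ B, A1 (j z) = j (z * x⁻¹)) (a2 : ∀ z ∉ B, A2 (j z) = j (z * y⁻¹))
    (a3 : ∀ z ∉ B, θ (j z) = j (g * z))
    (c1 : ∀ z ∉ B, ∀ t : ℕ, (θ ^ t) (A1 (j z)) = A1 ((θ ^ t) (j z)))
    (c2 : ∀ z ∉ B, ∀ t : ℕ, (θ ^ t) (A2 (j z)) = A2 ((θ ^ t) (j z))) (t : ℕ) :
    h * {z | (θ ^ t) (j z) ≠ j (g ^ t * z)}.ncard ≤ 4 * B.ncard := by
  have bd : ∀ (t : ℕ) (x : G) (A : Perm Y), (∀ z ∉ B, A (j z) = j (z * x⁻¹)) →
      (∀ z ∉ B, (θ ^ t) (A (j z)) = A ((θ ^ t) (j z))) →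
      {z ∈ {z | (θ ^ t) (j z) ≠ j (g ^ t * z)} |
        z * x ∉ {z | (θ ^ t) (j z) ≠ j (g ^ t * z)}}.ncard ≤ B.ncard + B.ncard := by
    intro t x A a c
    nth_rewrite 1 [← ncard_pre (Equiv.mulRight x) B]
    rw [← ncard_pre ((Equiv.mulRight x).trans (Equiv.mulLeft (g ^ t))) B]
    refine ncard_le_add fun z hz => ?_
    by_contra hb
    simp only [Set.mem_union, Set.mem_preimage, Equiv.coe_mulRight, Equiv.trans_apply,
      Equiv.coe_mulLeft, not_or] at hb
    have h1 := hz.2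
    simp only [Set.mem_ofPred_eq, not_not] at h1
    have h2 := c _ hb.1
    rw [h1, a _ hb.1, a _ hb.2, mul_inv_cancel_right, mul_assoc, mul_inv_cancel_right] at h2
    exact hz.1 h2
  induction t with
  | zero => simp
  | succ t ih =>
    have h1 : {z | (θ ^ (t + 1)) (j z) ≠ j (g ^ (t + 1) * z)}.ncard
        ≤ {z | (θ ^ t) (j z) ≠ j (g ^ t * z)}.ncard + B.ncard := by
      rw [← ncard_pre (Equiv.mulLeft (g ^ t)) B]
      refine ncard_le_add fun z hz => ?_
      by_contra hb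
      simp only [Set.mem_union, Set.mem_preimage, Equiv.coe_mulLeft, not_or, Set.mem_ofPred_eq,
        not_not] at hb
      exact hz (by rw [pow_succ', Perm.mul_apply, hb.1, a3 _ hb.2, pow_succ', mul_assoc])
    have h2 : (2 * {z | (θ ^ (t + 1)) (j z) ≠ j (g ^ (t + 1) * z)}.ncard : ℝ) ≤ Nat.card G := by
      have h3 : ({z | (θ ^ (t + 1)) (j z) ≠ j (g ^ (t + 1) * z)}.ncard : ℝ)
        ≤ {z | (θ ^ t) (j z) ≠ j (g ^ t * z)}.ncard + B.ncard := by exact_mod_cast h1
      refine le_of_mul_le_mul_left ?_ h0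
      nlinarith [mul_le_mul_of_nonneg_left h3 h0.le]
    have h4 := hex _ (by exact_mod_cast h2)
    have h5 := (Nat.cast_le (α := ℝ)).2 (bd (t + 1) x A1 a1 fun z hz => c1 z hz _)
    have h6 := (Nat.cast_le (α := ℝ)).2 (bd (t + 1) y A2 a2 fun z hz => c2 z hz _)
    rw [Nat.cast_add] at h5 h6
    exact h4.trans ((add_le_add h5 h6).trans (by linarith))

/-- in a finite action a power of `U` commutes with the conjugates of `B` where they have
order dividing `r` -/
theorem comm_at {Y : Type} [Finite Y] {n m r : ℕ} (hr : n ^ m ≡ 1 [MOD r]) (hn : 0 < n)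
    {U S B : Perm Y} (h1 : S⁻¹ * U * S = U ^ n) (h2 : U⁻¹ * B * U = B ^ n) (i t : ℕ) {y : Y}
    (hy : (((S ^ i)⁻¹ * B * S ^ i) ^ r) y = y) :
    ((U ^ m) ^ t) (((S ^ i)⁻¹ * B * S ^ i) y) = ((S ^ i)⁻¹ * B * S ^ i) (((U ^ m) ^ t) y) := by
  have cj : ∀ (a c : Perm Y), a⁻¹ * c * a = c ^ n → ∀ l : ℕ,
      (a ^ l)⁻¹ * c * a ^ l = c ^ (n ^ l) := by
    intro a c h l
    induction l with
    | zero => simp
    | succ l ih =>
      calc (a ^ (l + 1))⁻¹ * c * a ^ (l + 1) = a⁻¹ * ((a ^ l)⁻¹ * c * a ^ l) * a := by group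
        _ = (a⁻¹ * c * a) ^ (n ^ l) := by
            rw [ih]; simpa using (conj_pow (a := a⁻¹) (b := c) (i := n ^ l)).symm
        _ = c ^ (n ^ (l + 1)) := by rw [h, ← pow_mul, pow_succ']
  set b := (S ^ i)⁻¹ * B * S ^ i with hb
  set u := (S ^ i)⁻¹ * U * S ^ i with hu
  have e1 : u⁻¹ * b * u = b ^ n := by
    have := conj_pow (a := (S ^ i)⁻¹) (b := B) (i := n)
    rw [inv_inv] at this
    rw [hb, this, ← h2, hu]; group
  obtain ⟨κ, hκ⟩ : ∃ κ : ℕ, u ^ κ = U := by
    have e2 : orderOf u = orderOf U := by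
      have : u = MulAut.conj (S ^ i)⁻¹ U := by rw [MulAut.conj_apply, inv_inv]
      rw [this, MulEquiv.orderOf_eq]
    have e3 : u = U ^ n ^ i := cj S U h1 i
    rw [e3, orderOf_pow] at e2
    rw [e3]
    refine exists_pow_eq_self_of_coprime (Nat.Coprime.symm ?_)
    exact (Nat.div_eq_self.1 e2).resolve_left (orderOf_pos U).ne'
  have e4 := cj u b e1 (m * (κ * t))
  have e5 : n ^ (m * (κ * t)) ≡ 1 [MOD r] := by simpa [pow_mul] using hr.pow (κ * t)
  obtain ⟨q, hq⟩ := (Nat.modEq_iff_dvd' (Nat.one_le_pow _ _ hn)).1 e5.symm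
  have e6 : n ^ (m * (κ * t)) = 1 + r * q := by
    have := Nat.one_le_pow (m * (κ * t)) n hn
    omega
  have e7 : (U ^ m) ^ t = u ^ (m * (κ * t)) := by
    rw [← hκ, ← pow_mul, ← pow_mul]; congr 1; ring
  have e8 := congrArg (fun f : Perm Y => f y) e4
  simp only [e6, pow_add, pow_one, pow_mul b, Perm.mul_apply,
    Perm.pow_apply_eq_self_of_apply_eq_self hy] at e8
  rw [e7, ← e8]
  simp

/-- the indicator of the lower half of the residues -/
def half {p : ℕ} (y : ZMod p) : ZMod 2 := if y.val < p / 2 then 1 else 0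

theorem half_succ {p : ℕ} [Fact p.Prime] {y : ZMod p} (h1 : y + 1 ≠ 0)
    (h2 : y + 1 ≠ (p / 2 : ℕ)) : half (y + 1) = half y := by
  have hp := (Fact.out : p.Prime).one_lt
  have e : (y + 1).val = y.val + 1 := by
    rw [ZMod.val_add, ZMod.val_one, Nat.mod_eq_of_lt]
    refine lt_of_le_of_ne (ZMod.val_lt y) fun h => h1 ?_
    have := congrArg (Nat.cast : ℕ → ZMod p) h
    simpa using this
  have e2 : y.val + 1 ≠ p / 2 := fun h => h2 (by rw [← h]; simp)
  simp only [half, e]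
  exact if_congr (by omega) rfl rfl

/-- the residues near the two ends of the lower half -/
noncomputable def edgeSet (p K : ℕ) : Finset (ZMod p) :=
  ((Finset.Icc (-(K : ℤ)) K).image fun J : ℤ => -(J : ZMod p)) ∪
    (Finset.Icc (-(K : ℤ)) K).image fun J : ℤ => ((p / 2 : ℕ) : ZMod p) - (J : ZMod p)

theorem card_edgeSet (p K : ℕ) : (edgeSet p K).card ≤ 4 * K + 2 := by
  have h : (Finset.Icc (-(K : ℤ)) K).card = 2 * K + 1 := by
    rw [Int.card_Icc]; omega
  refine (Finset.card_union_le _ _).trans ((add_le_add Finset.card_image_le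
    Finset.card_image_le).trans ?_)
  omega

theorem half_add {p K : ℕ} [Fact p.Prime] {y : ZMod p} (hy : y ∉ edgeSet p K) (J : ℤ)
    (hJ : |J| ≤ K) : half (y + (J : ZMod p)) = half y := by
  have s : ∀ I : ℤ, |I + 1| ≤ K → half (y + (I : ZMod p) + 1) = half (y + (I : ZMod p)) := by
    intro I hI
    have hm : I + 1 ∈ Finset.Icc (-(K : ℤ)) K := Finset.mem_Icc.2 (abs_le.1 hI)
    refine half_succ (fun h => hy (Finset.mem_union_left _ (Finset.mem_image.2 ⟨_, hm, ?_⟩)))
      fun h => hy (Finset.mem_union_right _ (Finset.mem_image.2 ⟨_, hm, ?_⟩))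
    · push_cast; linear_combination -h
    · rw [← h]; push_cast; ring
  induction J using Int.induction_on with
  | zero => simp
  | succ i ih =>
    rw [← ih (by rw [abs_le] at hJ ⊢; omega), ← s i hJ]
    congr 1; push_cast; ring
  | pred i ih =>
    rw [← ih (by rw [abs_le] at hJ ⊢; omega),
      ← s (-(i : ℤ) - 1) (by rw [abs_le] at hJ ⊢; omega)]
    congr 1; push_cast; ring

theorem card_half (p : ℕ) [Fact p.Prime] :
    3 * (Finset.univ.filter fun y : ZMod p => half (y + ((p / 2 : ℕ) : ZMod p)) = half y).card ≤ 2 * p := by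
  have hp := (Fact.out : p.Prime).two_le
  have h1 : (Finset.range (p / 2)).card ≤
      (Finset.univ.filter fun y : ZMod p => ¬ half (y + ((p / 2 : ℕ) : ZMod p)) = half y).card := by
    refine Finset.card_le_card_of_injOn (fun a : ℕ => (a : ZMod p)) (fun a ha => ?_)
      fun a ha b hb e => ?_
    · have ha : a < p / 2 := by simpa using ha
      refine Finset.mem_coe.2 (Finset.mem_filter.2 ⟨Finset.mem_univ _, ?_⟩)
      rw [half, half, ← Nat.cast_add, ZMod.val_cast_of_lt (by omega), ZMod.val_cast_of_lt (by omega),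
        if_neg (by omega), if_pos ha]
      decide
    · have ha : a < p / 2 := by simpa using ha
      have hb : b < p / 2 := by simpa using hb
      have := congrArg ZMod.val e
      rwa [ZMod.val_cast_of_lt (by omega), ZMod.val_cast_of_lt (by omega)] at this
  have h2 := Finset.card_filter_add_card_filter_not (s := (Finset.univ : Finset (ZMod p)))
    fun y => half (y + ((p / 2 : ℕ) : ZMod p)) = half y
  rw [Finset.card_univ, ZMod.card, Finset.card_range] at *
  omega

end Pool.Agent.Lib.MP_5939ed_al.NT
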