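import Pool.Agent.Lib.MP_5939ed_al.NT.Model

/-!
The tuple attached to a random position function has the local statistics of a finite action.
-/

set_option autoImplicit false

namespace Pool.Agent.Lib.MP_5939ed_al.NT

open Equiv
open scoped Pointwise

variable {G : Type} [Group G] {p : ℕ} {E : ZMod p → G}

theorem exists_pos (hE : ∀ a b, E (a + b) = E a * E b) (hi : Function.Injective E) :
    ∃ pos : G → ZMod p, ∀ t a, pos (E t * a) = pos a + t := by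
  let s : Setoid G := ⟨fun a b => ∃ t, a = E t * b, fun a => ⟨0, by rw [E_zero hE, one_mul]⟩,
    fun ⟨t, h⟩ => ⟨-t, by rw [h, ← E_neg hE, inv_mul_cancel_left]⟩,
    fun ⟨t, h⟩ ⟨u, h'⟩ => ⟨t + u, by rw [h, h', hE, mul_assoc]⟩⟩
  have h1 : ∀ a, ∃ t, a = E t * (Quotient.mk s a).out := fun a => s.symm (Quotient.mk_out a)
  choose pos h1 using h1
  refine ⟨pos, fun t a => hi ?_⟩
  have h2 := h1 (E t * a)
  rw [show Quotient.mk s (E t * a) = Quotient.mk s a from Quotient.sound ⟨t, rfl⟩] at h2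
  nth_rewrite 1 [h1 a] at h2
  rw [← mul_assoc] at h2
  rw [add_comm, hE, mul_right_cancel h2]

/-- functions that are constant on the orbits -/
def Par (E : ZMod p → G) : AddSubgroup (G → ZMod p) where
  carrier := {f | ∀ t a, f (E t * a) = f a}
  add_mem' := fun hf hg t a => by rw [Pi.add_apply, Pi.add_apply, hf, hg]
  zero_mem' := fun _ _ => rfl
  neg_mem' := fun hf t a => by rw [Pi.neg_apply, Pi.neg_apply, hf]

theorem exists_par (hE : ∀ a b, E (a + b) = E a * E b) (S : Finset G) (v : G → ZMod p) (a : G) :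
    ∃ g : Par E, (∀ α ∈ S, ∀ β ∈ S, ∀ t, a * β = E t * (a * α) → β = α) →
      ∀ α ∈ S, g.1 (a * α) = v (a * α) := by
  classical
  refine ⟨⟨fun b => ∑ α ∈ S, if ∃ t, b = E t * (a * α) then v (a * α) else 0, fun s b => ?_⟩,
    fun h β hβ => ?_⟩
  · refine Finset.sum_congr rfl fun α _ => if_congr ⟨fun ⟨t, e⟩ => ⟨-s + t, ?_⟩,
      fun ⟨t, e⟩ => ⟨s + t, by rw [e, hE, mul_assoc]⟩⟩ rfl rfl
    rw [hE, mul_assoc, ← e, ← E_neg hE, inv_mul_cancel_left]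
  · change ∑ α ∈ S, (if ∃ t, a * β = E t * (a * α) then v (a * α) else 0) = _
    rw [Finset.sum_eq_single_of_mem β hβ fun α hα ne => if_neg fun ⟨t, e⟩ =>
      ne (h α hα β hβ t e).symm, if_pos ⟨0, by rw [E_zero hE, one_mul]⟩]

theorem lift_conj {H : Type} [Group H] (Φ : H) (ρ : Fin 3 → H) (w : FreeGroup (Fin 3)) :
    FreeGroup.lift (fun i => Φ⁻¹ * ρ i * Φ) w = Φ⁻¹ * FreeGroup.lift ρ w * Φ := by
  have : FreeGroup.lift (fun i => Φ⁻¹ * ρ i * Φ)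
      = (MulAut.conj Φ⁻¹).toMonoidHom.comp (FreeGroup.lift ρ) := by
    ext i
    simp
  rw [this]
  simp

/-- the local step: along short words the two labellings agree -/
theorem local_eq {n : ℕ} (D : Fib n) (k : ℕ) (hn : 0 < n) [Fact p.Prime] [DecidableEq G]
    (hE : ∀ a b, E (a + b) = E a * E b) {ν : (ZMod p)ˣ} (hν : (ν : ZMod p) = n) (x y : G)
    {pos : G → ZMod p} (hpos : ∀ t a, pos (E t * a) = pos a + t) (z : ZZ (Par E) G D.F p)
    (g : Par E) (hg : ∀ α ∈ ({1, x, x⁻¹, y, y⁻¹} : Finset G) ^ (2 * k),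
      g.1 (z.1.2 * α) = pos (z.1.2 * α))
    (h2 : ∀ α ∈ ({1, x, x⁻¹, y, y⁻¹} : Finset G) ^ (2 * k), ∀ i ≤ 2 * k,
      (pos (z.1.2 * α) + z.1.1.1.1 (z.1.2 * α))
        * (ν ^ (2 * k) * (z.1.1.2 * (ν ^ k)⁻¹ * ν ^ i)⁻¹).val
        ∉ edgeSet p (k * n ^ (2 * k) * n ^ (2 * k)))
    (w : FreeGroup (Fin 3)) (hw : w.toWord.length ≤ k) :
    FreeGroup.lift (gens D E ν x y (lab (fun (f : Par E) a => pos a + f.1 a) (ν ^ (2 * k)))) w z = z
      ↔ FreeGroup.lift (gens D E ν x y (lab (fun (f : Par E) a => f.1 a) (ν ^ (2 * k)))) w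
        (((z.1.1.1 + g, z.1.1.2), z.1.2), z.2) = (((z.1.1.1 + g, z.1.1.2), z.1.2), z.2) := by
  set Γ : Finset G := {1, x, x⁻¹, y, y⁻¹} with hΓ
  set e0 := z.1.1.2 * (ν ^ k)⁻¹ with he0
  let Ψ : ZZ (Par E) G D.F p → ZZ (Par E) G D.F p :=
    fun q => (((q.1.1.1 + g, q.1.1.2), q.1.2), q.2)
  have hΨ : Function.Injective Ψ := fun q q' e => by
    simp only [Ψ, Prod.mk.injEq, add_left_inj] at e
    exact Prod.ext (Prod.ext (Prod.ext e.1.1.1 e.1.1.2) e.1.2) e.2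
  have one : (1 : G) ∈ Γ := by simp [hΓ]
  have gm1 : ∀ c f, gm D x y c f ∈ Γ := fun c f => by
    unfold gm; split_ifs <;> simp [hΓ]
  have gm2 : ∀ c f, (gm D x y c f)⁻¹ ∈ Γ := fun c f => by
    unfold gm; split_ifs <;> simp [hΓ]
  have up : ∀ j, ∀ α ∈ Γ ^ j, ∀ γ ∈ Γ, α * γ ∈ Γ ^ (j + 1) := fun j α hα γ hγ => by
    rw [pow_succ]; exact Finset.mul_mem_mul hα hγ
  have agree : ∀ i ≤ 2 * k, ∀ α ∈ Γ ^ (2 * k), ∀ J : ℤ, |J| ≤ (k * n ^ (2 * k) : ℕ) →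
      lab (fun (f : Par E) a => pos a + f.1 a) (ν ^ (2 * k)) (z.1.1.1, e0 * ν ^ i)
        (E (e0 * J) * (z.1.2 * α))
      = lab (fun (f : Par E) a => f.1 a) (ν ^ (2 * k)) (z.1.1.1 + g, e0 * ν ^ i)
        (E (e0 * J) * (z.1.2 * α)) := by
    intro i hi α hα J hJ
    have b := half_add (h2 α hα i hi) (J * (n ^ (2 * k - i) : ℕ)) (by
      rw [abs_mul, Nat.cast_mul _ (n ^ (2 * k)), Nat.abs_cast]
      exact mul_le_mul hJ (by exact_mod_cast Nat.pow_le_pow_right hn (by omega))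
        (by positivity) (by positivity))
    have c : e0 * (ν ^ (2 * k) * (e0 * ν ^ i)⁻¹) = ν ^ (2 * k - i) := by
      rw [pow_sub _ hi, mul_inv, mul_left_comm, mul_inv_cancel_left]
    have c' := congrArg Units.val c
    rw [Units.val_mul, Units.val_pow_eq_pow_val, hν] at c'
    simp only [lab]
    rw [(z.1.1.1 + g).2, z.1.1.1.2, hpos, AddSubgroup.coe_add, Pi.add_apply, hg α hα,
      add_comm (z.1.1.1.1 _), ← b]
    congr 1
    rw [Int.cast_mul, Int.cast_natCast, Nat.cast_pow, ← c']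
    ring
  let N : ℕ → Set (ZZ (Par E) G D.F p) := fun j => {q | q.1.1.1 = z.1.1.1 ∧ ∃ i : ℕ,
    k ≤ i + j ∧ i ≤ k + j ∧ q.1.1.2 = e0 * ν ^ i ∧ ∃ α ∈ Γ ^ (2 * j), ∃ J : ℤ,
      |J| ≤ (j * n ^ (2 * k) : ℕ) ∧ q.1.2 = E (e0 * J) * (z.1.2 * α)}
  have key := traj (gens D E ν x y (lab (fun (f : Par E) a => pos a + f.1 a) (ν ^ (2 * k))))
    (gens D E ν x y (lab (fun (f : Par E) a => f.1 a) (ν ^ (2 * k)))) Ψ N k ?_ (z := z)
    ⟨rfl, k, by omega, by omega, by simp [he0], 1, by simp, 0, by simp,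
      by simp [E_zero hE]⟩ w hw
  · change _ ↔ _ = Ψ z
    rw [← hΨ.eq_iff, key]
  rintro j hj ⟨⟨⟨f, e⟩, a⟩, c, η, o⟩ ⟨h1, i, i1, i2, h3, α, hα, J, hJ, h4⟩ l
  simp only at h1 h3 h4
  subst h1 h3 h4
  have hα2 : α ∈ Γ ^ (2 * (j + 1)) := Finset.pow_subset_pow_right one (by omega) hα
  have hJ2 : |J| ≤ ((j + 1) * n ^ (2 * k) : ℕ) :=
    hJ.trans (by exact_mod_cast Nat.mul_le_mul_right _ (Nat.le_succ j))
  have hJ3 : |J| + |((n ^ i : ℕ) : ℤ)| ≤ ((j + 1) * n ^ (2 * k) : ℕ) := by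
    rw [add_mul, one_mul, Nat.cast_add, Nat.abs_cast]
    exact add_le_add hJ (by exact_mod_cast Nat.pow_le_pow_right hn (by omega))
  have hv : (e0 * ν ^ i).val = e0.val * ((n ^ i : ℕ) : ℤ) := by
    rw [Units.val_mul, Units.val_pow_eq_pow_val, hν]; push_cast; rfl
  have ag : lab (fun (f : Par E) a => pos a + f.1 a) (ν ^ (2 * k)) (z.1.1.1, e0 * ν ^ i)
        (E (e0 * J) * (z.1.2 * α) * (gm D x y c o)⁻¹)
      = lab (fun (f : Par E) a => f.1 a) (ν ^ (2 * k)) (z.1.1.1 + g, e0 * ν ^ i)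
        (E (e0 * J) * (z.1.2 * α) * (gm D x y c o)⁻¹) := by
    rw [mul_assoc (E _), mul_assoc z.1.2]
    exact agree i (by omega) _ (Finset.pow_subset_pow_right one (by omega)
      (up _ _ hα _ (gm2 c o))) J
      (hJ.trans (by exact_mod_cast Nat.mul_le_mul_right _ hj.le))
  fin_cases l
  · refine ⟨⟨⟨rfl, i, by omega, by omega, rfl, α, hα2, (n ^ i : ℕ) + J,
      (abs_add_le _ _).trans ((add_comm _ _).trans_le hJ3), ?_⟩, rfl⟩,
      ⟨rfl, i, by omega, by omega, rfl, α, hα2, -(n ^ i : ℕ) + J,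
      (abs_add_le _ _).trans (by rw [abs_neg, add_comm]; exact hJ3), ?_⟩, rfl⟩
    · change E (e0 * ν ^ i).val * _ = _
      rw [← mul_assoc, ← hE, hv, Int.cast_add, mul_add]
    · change (E (e0 * ν ^ i).val)⁻¹ * _ = _
      rw [E_neg hE, ← mul_assoc, ← hE, hv, Int.cast_add, mul_add, Int.cast_neg, mul_neg]
  · obtain ⟨i, rfl⟩ : ∃ i', i = i' + 1 := ⟨i - 1, by omega⟩
    exact ⟨⟨⟨rfl, i + 1 + 1, by omega, by omega, by
        change e0 * ν ^ (i + 1) * ν = _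
        rw [pow_succ ν (i + 1), mul_assoc e0], α, hα2, J, hJ2, rfl⟩, rfl⟩,
      ⟨rfl, i, by omega, by omega, by
        change e0 * ν ^ (i + 1) * ν⁻¹ = _
        rw [pow_succ, ← mul_assoc, mul_inv_cancel_right], α, hα2, J, hJ2, rfl⟩, rfl⟩
  · refine ⟨⟨⟨rfl, i, by omega, by omega, rfl, _,
      up _ _ (up _ _ hα _ (gm2 c o)) _ (gm1 c (D.T o)), J, hJ2, ?_⟩, ?_⟩,
      ⟨rfl, i, by omega, by omega, rfl, _,
      up _ _ (up _ _ hα _ (gm2 c o)) _ (gm1 c (D.T⁻¹ o)), J, hJ2, ?_⟩, ?_⟩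
    · change E (e0 * J) * (z.1.2 * α) * (gm D x y c o)⁻¹ * gm D x y c (D.T o) = _
      simp only [mul_assoc]
    · change Ψ (mB D x y _ _) = mB D x y _ _
      simp only [mB_apply, Ψ, ag]
    · change E (e0 * J) * (z.1.2 * α) * (gm D x y c o)⁻¹ * gm D x y c (D.T⁻¹ o) = _
      simp only [mul_assoc]
    · change Ψ ((mB D x y _)⁻¹ _) = (mB D x y _)⁻¹ _
      simp only [mB_inv_apply, Ψ, ag]

theorem near {n : ℕ} (hn : 0 < n) (D : Fib n) (k : ℕ) : ∃ C : ℕ,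
    ∀ (p : ℕ) [Fact p.Prime] (G : Type) [Group G] [Finite G] (E : ZMod p → G)
      (_ : ∀ a b, E (a + b) = E a * E b) (_ : Function.Injective E) (ν : (ZMod p)ˣ)
      (_ : (ν : ZMod p) = n) (x y : G) (H : ZMod p → G)
      (_ : ∀ γ ≠ 1, ∀ c c' a a' t t', a * γ = E t * a → a' * γ = E t' * a' →
        H c * a = H c' * a' → c = c'),
      ∃ (ℓ : Par E → G → ZMod p) (ρ : Fin 3 → Perm (ZZ (Par E) G D.F p)),
        (∀ f t a, ℓ f (E t * a) = ℓ f a + t) ∧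
        (ρ 1)⁻¹ * ρ 0 * ρ 1 = ρ 0 ^ n ∧ (ρ 0)⁻¹ * ρ 2 * ρ 0 = ρ 2 ^ n ∧
        p * {z | ∃ w : FreeGroup (Fin 3), w.toWord.length ≤ k ∧
          ¬ (FreeGroup.lift (gens D E ν x y (lab ℓ (ν ^ (2 * k)))) w z = z ↔
            FreeGroup.lift ρ w z = z)}.ncard ≤ C * Nat.card (ZZ (Par E) G D.F p) := by
  classical
  refine ⟨5 ^ (2 * k) * 5 ^ (2 * k) + 5 ^ (2 * k) * (2 * k + 1)
    * (4 * (k * n ^ (2 * k) * n ^ (2 * k)) + 2), ?_⟩
  intro p _ G _ _ E hE hi ν hν x y H hH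
  obtain ⟨pos, hpos⟩ := exists_pos hE hi
  set Γ : Finset G := {1, x, x⁻¹, y, y⁻¹} with hΓ
  choose g hg using exists_par hE (Γ ^ (2 * k)) pos
  let Φ : Perm (ZZ (Par E) G D.F p) :=
    { toFun := fun q => (((q.1.1.1 + g q.1.2, q.1.1.2), q.1.2), q.2)
      invFun := fun q => (((q.1.1.1 - g q.1.2, q.1.1.2), q.1.2), q.2)
      left_inv := fun q => by simp
      right_inv := fun q => by simp }
  set ρ0 := gens D E ν x y (lab (fun (f : Par E) a => f.1 a) (ν ^ (2 * k))) with hρ0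
  have r1 : (ρ0 1)⁻¹ * ρ0 0 * ρ0 1 = ρ0 0 ^ n := rel_one D hE hν
  have r2 : (ρ0 0)⁻¹ * ρ0 2 * ρ0 0 = ρ0 2 ^ n :=
    rel_two D fun w t a => by simp only [lab]; rw [w.1.2]
  have cp : ∀ a : Perm (ZZ (Par E) G D.F p), (Φ⁻¹ * a * Φ) ^ n = Φ⁻¹ * a ^ n * Φ := fun a => by
    have := conj_pow (a := Φ⁻¹) (b := a) (i := n)
    rwa [inv_inv] at this
  refine ⟨fun f a => pos a + f.1 a, fun i => Φ⁻¹ * ρ0 i * Φ, fun f t a => ?_, ?_, ?_, ?_⟩
  · simp only [hpos]; rw [f.2]; ring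
  · rw [cp, ← r1]; group
  · rw [cp, ← r2]; group
  have cΓ : (Γ ^ (2 * k)).card ≤ 5 ^ (2 * k) :=
    Finset.card_pow_le.trans (Nat.pow_le_pow_left Finset.card_le_five _)
  have b1 := union_le (Z := ZZ (Par E) G D.F p) ((Γ ^ (2 * k)) ×ˢ (Γ ^ (2 * k)))
    (fun q => {z | q.2 ≠ q.1 ∧ ∃ t, z.1.2 * q.2 = E t * (z.1.2 * q.1)}) p _ fun q _ =>
    inj_le (fun c z => ((z.1.1, H c * z.1.2), z.2)) _ (by
      rintro c c' z ⟨ne, t, e⟩ z' ⟨-, t', e'⟩ h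
      simp only [Prod.mk.injEq] at h
      obtain rfl : c = c' := hH (q.2 * q.1⁻¹) (fun h => ne (mul_inv_eq_one.1 h)) c c' z.1.2 z'.1.2
        t t' (by rw [← mul_assoc, e]; group) (by rw [← mul_assoc, e']; group) h.1.2
      exact ⟨rfl, Prod.ext (Prod.ext h.1.1 (mul_left_cancel h.1.2)) h.2⟩)
  have b2 := union_le (Z := ZZ (Par E) G D.F p) ((Γ ^ (2 * k)) ×ˢ Finset.range (2 * k + 1))
    (fun q => {z | (pos (z.1.2 * q.1) + z.1.1.1.1 (z.1.2 * q.1))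
      * (ν ^ (2 * k) * (z.1.1.2 * (ν ^ k)⁻¹ * ν ^ q.2)⁻¹).val
      ∈ edgeSet p (k * n ^ (2 * k) * n ^ (2 * k))}) p _ fun q _ =>
    (fib_le _ (fun s => ⟨fun z => ((z.1.1,
      E (s * (ν ^ (2 * k) * (z.1.1.2 * (ν ^ k)⁻¹ * ν ^ q.2)⁻¹)⁻¹.val) * z.1.2), z.2),
      fun z z' h => by
        simp only [Prod.mk.injEq] at h
        obtain ⟨⟨a1, a2⟩, a3⟩ := h
        rw [a1] at a2
        exact Prod.ext (Prod.ext a1 (mul_left_cancel a2)) a3,
      fun z => by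
        simp only
        rw [mul_assoc (E _), hpos, z.1.1.1.2, add_right_comm, add_mul _ (s * _), mul_assoc s,
          Units.inv_mul, mul_one]⟩) _).trans
      (Nat.mul_le_mul_right _ (card_edgeSet _ _))
  rw [Finset.card_product] at b1 b2
  rw [Finset.card_range] at b2
  refine le_trans (Nat.mul_le_mul_left p (ncard_le_add fun z hz => ?_))
    ((mul_add _ _ _).trans_le ((add_le_add b1 b2).trans ?_))
  · by_contra hb
    simp only [Set.mem_union, Set.mem_ofPred_eq, not_or, not_exists, not_and, Prod.forall,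
      Finset.mem_product, Finset.mem_range, and_imp] at hb
    obtain ⟨w, hw, hz⟩ := hz
    refine hz ?_
    rw [lift_conj, Perm.mul_apply, Perm.mul_apply, Perm.inv_eq_iff_eq]
    exact local_eq D k hn hE hν x y hpos z (g z.1.2) (hg _ fun α hα β hβ t e => by
      by_contra ne
      exact hb.1 α β hα hβ ne t e) (fun α hα i hi => hb.2 α i hα (by omega)) w hw
  · rw [add_mul (5 ^ (2 * k) * 5 ^ (2 * k)), mul_assoc (5 ^ (2 * k) * (2 * k + 1))]
    exact add_le_add (Nat.mul_le_mul_right _ (Nat.mul_le_mul cΓ cΓ))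
      (Nat.mul_le_mul_right _ (Nat.mul_le_mul_right _ cΓ))

end Pool.Agent.Lib.MP_5939ed_al.NT
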