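import Pool.Agent.Lib.MP_5939ed_al.NT.Far
import Pool.Agent.Lib.MP_5939ed_al.NT.Near
import Pool.Agent.Lib.MP_34a149_al.RG.Exp

/-!
Assembly over the groups `SL(3, ℤ/p)`.
-/

set_option autoImplicit false

namespace Pool.Agent.Lib.MP_5939ed_al.NT

open Equiv
open Pool.Agent.Lib.MP_34a149_al.RG

section SL
variable {R : Type} [Field R]

/-- upper elementary matrices -/
def up (t : R) : SL3 R := Exp.tv (i := 0) (j := 1) (by decide) t

/-- lower elementary matrices -/
def lo (t : R) : SL3 R := Exp.tv (i := 1) (j := 0) (by decide) t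

theorem up_add (a b : R) : up (a + b) = up a * up b :=
  Subtype.ext (Matrix.transvection_mul_transvection_same (0 : Fin 3) 1 (by decide) a b).symm

theorem lo_add (a b : R) : lo (a + b) = lo a * lo b :=
  Subtype.ext (Matrix.transvection_mul_transvection_same (1 : Fin 3) 0 (by decide) a b).symm

theorem up_inj : Function.Injective (up : R → SL3 R) := fun a b h => by
  have := congrArg (fun g : SL3 R => g.1 0 1) h
  simpa [up, Matrix.SpecialLinearGroup.transvection_coe] using this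

theorem up_zero : up (0 : R) = 1 := by
  have := up_add (0 : R) 0
  rw [add_zero] at this
  exact left_eq_mul.1 this

theorem sep (γ : SL3 R) (hγ : γ ≠ 1) (c c' : R) (a a' : SL3 R) (t t' : R)
    (h : a * γ = up t * a) (h' : a' * γ = up t' * a') (e : lo c * a = lo c' * a') : c = c' := by
  have e1 : a' = lo (c - c') * a := by
    refine mul_left_cancel (a := lo c') ?_
    rw [← e, ← mul_assoc, ← lo_add, add_sub_cancel]
  have ht : t' ≠ 0 := by
    rintro rfl
    rw [up_zero, one_mul] at h'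
    exact hγ (mul_eq_left.1 h')
  rw [e1, mul_assoc, h, ← mul_assoc, ← mul_assoc] at h'
  have := congrArg (fun g : SL3 R => g.1 0 0) (mul_right_cancel h')
  simp [up, lo, Matrix.SpecialLinearGroup.transvection_coe, Matrix.mul_apply, Fin.sum_univ_three,
    Matrix.one_apply, ht] at this
  exact sub_eq_zero.1 this

end SL

theorem lift_congr {Z Z' : Type} (e : Z ≃ Z') (σ : Fin 3 → Perm Z) (w : FreeGroup (Fin 3)) :
    FreeGroup.lift ![e.permCongr (σ 0), e.permCongr (σ 1), e.permCongr (σ 2)] w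
      = e.permCongr (FreeGroup.lift σ w) := by
  have : FreeGroup.lift ![e.permCongr (σ 0), e.permCongr (σ 1), e.permCongr (σ 2)]
      = e.permCongrHom.toMonoidHom.comp (FreeGroup.lift σ) := by
    refine FreeGroup.ext_hom _ _ fun i => ?_
    fin_cases i <;> simp
  rw [this]
  rfl

theorem not_testable (n : ℕ) (hn : 2 ≤ n) : ∃ ε : ℝ, 0 < ε ∧
    ∀ (P : Finset (FreeGroup (Fin 3))) (δ : ℝ), 0 < δ →
      ∃ (N : ℕ) (a b c a₀ b₀ c₀ : Perm (Fin N)), 0 < N ∧
        b₀⁻¹ * a₀ * b₀ = a₀ ^ n ∧ a₀⁻¹ * c₀ * a₀ = c₀ ^ n ∧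
        ({i | ∃ w ∈ P, ¬ (FreeGroup.lift ![a, b, c] w i = i ↔
          FreeGroup.lift ![a₀, b₀, c₀] w i = i)}.ncard : ℝ) < δ * N ∧
        ∀ (M : ℕ) (ι : Fin N ↪ Fin M) (a' b' c' : Perm (Fin M)),
          b'⁻¹ * a' * b' = a' ^ n → a'⁻¹ * c' * a' = c' ^ n →
          ε * N ≤ {i | ι (a i) ≠ a' (ι i)}.ncard ∨ ε * N ≤ {i | ι (b i) ≠ b' (ι i)}.ncard ∨
            ε * N ≤ {i | ι (c i) ≠ c' (ι i)}.ncard := by
  obtain ⟨D⟩ := exists_fib hn
  obtain ⟨h, h0, hex⟩ := expand closure_xy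
  obtain ⟨ε, hε, hfar⟩ := far (by omega) D h0
  refine ⟨ε, hε, fun P δ hδ => ?_⟩
  obtain ⟨C, hC⟩ := near (by omega) D (P.sup fun w => w.toWord.length)
  obtain ⟨K, hK⟩ := exists_nat_gt (C / δ)
  obtain ⟨p, hp, pp⟩ := Nat.exists_infinite_primes (K + n + D.m + 1)
  have : Fact p.Prime := ⟨pp⟩
  have nz : ∀ a : ℕ, 0 < a → a < p → (a : ZMod p) ≠ 0 := fun a h1 h2 h =>
    Nat.not_dvd_of_pos_of_lt h1 h2 ((ZMod.natCast_eq_zero_iff a p).1 h)
  let ν : (ZMod p)ˣ := Units.mk0 n (nz n (by omega) (by omega))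
  obtain ⟨ℓ, ρ, hℓ, r1, r2, hb⟩ := hC p (SL3 (ZMod p)) up up_add up_inj ν rfl (red _ xx)
    (red _ yy) lo sep
  have hf := hfar p (SL3 (ZMod p)) (Par up) up up_add ν
    (ν ^ (2 * P.sup fun w => w.toWord.length)) (nz _ D.hm (by omega)) (red _ xx) (red _ yy)
    (hex p pp.ne_zero _ (red (ZMod p)) (red_surj p) le_rfl) ℓ hℓ
  set σ := gens D up ν (red _ xx) (red _ yy) (lab ℓ (ν ^ (2 * P.sup fun w => w.toWord.length)))
  have : Nonempty D.F := ⟨D.o⟩
  let e := Finite.equivFin (ZZ (Par (up : ZMod p → SL3 (ZMod p))) (SL3 (ZMod p)) D.F p)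
  have hN : 0 < Nat.card (ZZ (Par (up : ZMod p → SL3 (ZMod p))) (SL3 (ZMod p)) D.F p) :=
    Nat.card_pos
  refine ⟨_, e.permCongr (σ 0), e.permCongr (σ 1), e.permCongr (σ 2), e.permCongr (ρ 0),
    e.permCongr (ρ 1), e.permCongr (ρ 2), hN, ?_, ?_, ?_, fun M ι a' b' c' s1 s2 => ?_⟩
  · have := congrArg e.permCongrHom r1
    rwa [map_mul, map_mul, map_inv, map_pow] at this
  · have := congrArg e.permCongrHom r2
    rwa [map_mul, map_mul, map_inv, map_pow] at this
  · rw [← ncard_pre e]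
    have h1 := (Nat.mul_le_mul_left p (Set.ncard_le_ncard (s := e ⁻¹' {i | ∃ w ∈ P,
      ¬ (FreeGroup.lift ![e.permCongr (σ 0), e.permCongr (σ 1), e.permCongr (σ 2)] w i = i ↔
        FreeGroup.lift ![e.permCongr (ρ 0), e.permCongr (ρ 1), e.permCongr (ρ 2)] w i = i)})
      (by
        rintro z ⟨w, hw, hz⟩
        exact ⟨w, Finset.le_sup (f := fun w => w.toWord.length) hw, by
          simpa [lift_congr] using hz⟩))).trans hb
    have h2 := (Nat.cast_le (α := ℝ)).2 h1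
    rw [Nat.cast_mul, Nat.cast_mul] at h2
    have h3 : (K : ℝ) ≤ p := by exact_mod_cast (by omega : K ≤ p)
    have h4 : (0 : ℝ) < p := by exact_mod_cast pp.pos
    rw [div_lt_iff₀ hδ] at hK
    refine lt_of_mul_lt_mul_left (h2.trans_lt ?_) h4.le
    rw [← mul_assoc]
    exact mul_lt_mul_of_pos_right (hK.trans_le (mul_le_mul_of_nonneg_right h3 hδ.le))
      (by exact_mod_cast hN)
  · obtain ⟨i, hi⟩ := hf (Fin M) (fun z => ι (e z)) (ι.injective.comp e.injective) ![a', b', c']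
      s1 s2
    have tr : ∀ (α : Perm (ZZ (Par (up : ZMod p → SL3 (ZMod p))) (SL3 (ZMod p)) D.F p))
        (β : Perm (Fin M)), dd (fun z => ι (e z)) α β
          = {i | ι (e.permCongr α i) ≠ β (ι i)}.ncard := fun α β => by
      rw [← ncard_pre e, dd]
      congr 1
      ext z
      simp
    rw [tr] at hi
    fin_cases i
    · exact Or.inl hi
    · exact Or.inr (Or.inl hi)
    · exact Or.inr (Or.inr hi)

end Pool.Agent.Lib.MP_5939ed_al.NT
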