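import Pool.Agent.Lib.MP_5939ed_al.NT.Gen

/-!
The family of tuples of permutations attached to a labelling.
-/

set_option autoImplicit false
set_option linter.unusedSectionVars false

namespace Pool.Agent.Lib.MP_5939ed_al.NT

open Equiv

/-- a finite action with two marked points -/
structure Fib (n : ℕ) where
  F : Type
  [fin : Finite F]
  [dec : DecidableEq F]
  T : Perm F
  M : Perm F
  ψ : Perm F
  o : F
  r : ℕ
  m : ℕ
  hm : 0 < m
  hr : n ^ m ≡ 1 [MOD r]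
  Tr : T ^ r = 1
  r1 : ψ⁻¹ * M * ψ = M ^ n
  r2 : M⁻¹ * T * M = T ^ n
  Mo : M o = o
  ψo : ψ o = o
  ψT : ψ (T o) = T o
  To : T o ≠ o

attribute [instance] Fib.fin Fib.dec

theorem exists_fib {n : ℕ} (hn : 2 ≤ n) : Nonempty (Fib n) := by
  rcases hn.eq_or_lt with rfl | h
  · exact ⟨{ F := Fin 7
             T := finRotate 7
             M := ⟨fun z => 4 * z, fun z => 2 * z, by decide, by decide⟩
             ψ := swap 2 4 * swap 5 6
             o := 0, r := 7, m := 3, hm := by decide, hr := by decide, Tr := by decide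
             r1 := by decide, r2 := by decide, Mo := by decide, ψo := by decide
             ψT := by decide, To := by decide }⟩
  · obtain ⟨q, rfl⟩ : ∃ q, n = q + 2 + 1 := ⟨n - 3, by omega⟩
    have h1 : (Equiv.addRight (1 : ZMod (q + 2))) ^ (q + 2) = 1 := by
      ext z
      simp
    exact ⟨{ F := ZMod (q + 2)
             T := Equiv.addRight 1
             M := 1
             ψ := 1
             o := 0, r := q + 2, m := 1, hm := one_pos
             hr := by simp [Nat.ModEq], Tr := h1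
             r1 := by simp, r2 := by rw [pow_succ, h1]; simp
             Mo := rfl, ψo := rfl, ψT := rfl
             To := by
               have : Fact (1 < q + 2) := ⟨by omega⟩
               simp }⟩

/-- the space: parameter, level, group element, colour, sheet, fibre -/
abbrev ZZ (P G F : Type) (p : ℕ) : Type := ((P × (ZMod p)ˣ) × G) × (ZMod 4 × ZMod 2 × F)

variable {n : ℕ} (D : Fib n) {G P : Type} [Group G] {p : ℕ}

/-- the generator `u` -/
def mU (E : ZMod p → G) : Perm (ZZ P G D.F p) where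
  toFun z := ((z.1.1, E z.1.1.2 * z.1.2), z.2.1, z.2.2.1, D.M z.2.2.2)
  invFun z := ((z.1.1, (E z.1.1.2)⁻¹ * z.1.2), z.2.1, z.2.2.1, D.M⁻¹ z.2.2.2)
  left_inv z := by simp
  right_inv z := by simp

/-- the generator `s` -/
def mS (ν : (ZMod p)ˣ) : Perm (ZZ P G D.F p) where
  toFun z := (((z.1.1.1, z.1.1.2 * ν), z.1.2), z.2.1 + 1, z.2.2.1, D.ψ z.2.2.2)
  invFun z := (((z.1.1.1, z.1.1.2 * ν⁻¹), z.1.2), z.2.1 - 1, z.2.2.1, D.ψ⁻¹ z.2.2.2)
  left_inv z := by simp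
  right_inv z := by simp

/-- the rotation of the fibre -/
def mT : Perm (ZZ P G D.F p) := Equiv.prodCongr 1 (Equiv.prodCongr 1 (Equiv.prodCongr 1 D.T))

/-- the multiplier -/
def gm (x y : G) (c : ZMod 4) (f : D.F) : G :=
  if f = D.o then if c = 2 then x else if c = 3 then y else 1 else 1

/-- right multiplication over the marked point -/
def mR (x y : G) : Perm (ZZ P G D.F p) where
  toFun z := ((z.1.1, z.1.2 * gm D x y z.2.1 z.2.2.2), z.2)
  invFun z := ((z.1.1, z.1.2 * (gm D x y z.2.1 z.2.2.2)⁻¹), z.2)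
  left_inv z := by simp
  right_inv z := by simp

/-- the change of sheet -/
def mW (χ : P × (ZMod p)ˣ → G → ZMod 2) : Perm (ZZ P G D.F p) where
  toFun z := (z.1, z.2.1, z.2.2.1 + if z.2.1 = 0 ∧ z.2.2.2 = D.o then χ z.1.1 z.1.2 else 0,
    z.2.2.2)
  invFun z := (z.1, z.2.1, z.2.2.1 - if z.2.1 = 0 ∧ z.2.2.2 = D.o then χ z.1.1 z.1.2 else 0,
    z.2.2.2)
  left_inv z := by simp
  right_inv z := by simp

/-- the generator `b` -/
def mB (x y : G) (χ : P × (ZMod p)ˣ → G → ZMod 2) : Perm (ZZ P G D.F p) :=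
  (mR D x y * mW D χ) * mT D * (mR D x y * mW D χ)⁻¹

/-- the three generators -/
def gens (E : ZMod p → G) (ν : (ZMod p)ˣ) (x y : G) (χ : P × (ZMod p)ˣ → G → ZMod 2) :
    Fin 3 → Perm (ZZ P G D.F p) := ![mU D E, mS D ν, mB D x y χ]

variable {E : ZMod p → G} (hE : ∀ a b, E (a + b) = E a * E b) {ν : (ZMod p)ˣ} {x y : G}
  {χ : P × (ZMod p)ˣ → G → ZMod 2}

include hE in
theorem E_zero : E 0 = 1 := by
  have := hE 0 0
  rw [add_zero] at this
  exact left_eq_mul.1 this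

include hE in
theorem E_pow (a : ZMod p) (t : ℕ) : E a ^ t = E (t * a) := by
  induction t with
  | zero => simp [E_zero hE]
  | succ t ih => rw [pow_succ, ih, ← hE]; congr 1; push_cast; ring

include hE in
theorem E_neg (a : ZMod p) : (E a)⁻¹ = E (-a) := by
  rw [inv_eq_iff_mul_eq_one, ← hE, add_neg_cancel, E_zero hE]

theorem mU_pow (t : ℕ) (z : ZZ P G D.F p) : (mU D E ^ t) z
    = ((z.1.1, E z.1.1.2 ^ t * z.1.2), z.2.1, z.2.2.1, (D.M ^ t) z.2.2.2) := by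
  induction t with
  | zero => simp
  | succ t ih => rw [pow_succ', Perm.mul_apply, ih, pow_succ', pow_succ', mul_assoc]; rfl

theorem mS_pow (t : ℕ) (z : ZZ P G D.F p) : (mS D ν ^ t) z
    = (((z.1.1.1, z.1.1.2 * ν ^ t), z.1.2), z.2.1 + t, z.2.2.1, (D.ψ ^ t) z.2.2.2) := by
  induction t with
  | zero => simp
  | succ t ih =>
    rw [pow_succ', Perm.mul_apply, ih, pow_succ, pow_succ', ← mul_assoc, Nat.cast_succ,
      ← add_assoc]
    rfl

theorem mT_pow (t : ℕ) (z : ZZ P G D.F p) : (mT D ^ t) z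
    = (z.1, z.2.1, z.2.2.1, (D.T ^ t) z.2.2.2) := by
  induction t with
  | zero => simp
  | succ t ih => rw [pow_succ', Perm.mul_apply, ih, pow_succ']; rfl

include hE in
theorem rel_one (hν : (ν : ZMod p) = n) :
    (mS D ν)⁻¹ * mU D E * mS D ν = (mU D E : Perm (ZZ P G D.F p)) ^ n := by
  ext1 z
  rw [mU_pow, ← D.r1, E_pow hE, ← hν]
  change (((z.1.1.1, z.1.1.2 * ν * ν⁻¹), E (z.1.1.2 * ν : (ZMod p)ˣ) * z.1.2), z.2.1 + 1 - 1,
    z.2.2.1, D.ψ⁻¹ (D.M (D.ψ z.2.2.2))) = _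
  rw [mul_inv_cancel_right, add_sub_cancel_right, Units.val_mul, mul_comm]
  rfl

theorem M_eq (f : D.F) : D.M f = D.o ↔ f = D.o := by
  nth_rewrite 1 [← D.Mo]
  exact D.M.injective.eq_iff

theorem rel_two (hχ : ∀ w t a, χ w (E t * a) = χ w a) :
    (mU D E)⁻¹ * mB D x y χ * mU D E = mB D x y χ ^ n := by
  have h1 : mU D E * mR D x y = mR (P := P) D x y * mU D E := by
    ext1 z
    change ((z.1.1, E z.1.1.2 * (z.1.2 * gm D x y z.2.1 z.2.2.2)), z.2.1, z.2.2.1, D.M z.2.2.2)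
      = ((z.1.1, E z.1.1.2 * z.1.2 * gm D x y z.2.1 (D.M z.2.2.2)), z.2.1, z.2.2.1, D.M z.2.2.2)
    simp only [gm, M_eq, mul_assoc]
  have h2 : mU D E * mW D χ = mW D χ * mU D E := by
    ext1 z
    change ((z.1.1, E z.1.1.2 * z.1.2), z.2.1,
        z.2.2.1 + if z.2.1 = 0 ∧ z.2.2.2 = D.o then χ z.1.1 z.1.2 else 0, D.M z.2.2.2)
      = ((z.1.1, E z.1.1.2 * z.1.2), z.2.1, z.2.2.1 + if z.2.1 = 0 ∧ D.M z.2.2.2 = D.o then
        χ z.1.1 (E z.1.1.2 * z.1.2) else 0, D.M z.2.2.2)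
    simp only [M_eq, hχ]
  have h3 : (mU D E)⁻¹ * mT D * mU D E = (mT D : Perm (ZZ P G D.F p)) ^ n := by
    ext1 z
    rw [mT_pow, ← D.r2]
    change ((z.1.1, (E z.1.1.2)⁻¹ * (E z.1.1.2 * z.1.2)), z.2.1, z.2.2.1,
      D.M⁻¹ (D.T (D.M z.2.2.2))) = _
    rw [inv_mul_cancel_left]
    rfl
  have h4 : Commute (mU D E) (mR D x y * mW D χ) := Commute.mul_right h1 h2
  rw [mB, conj_pow, ← h3]
  set φ := mR D x y * mW D χ
  calc (mU D E)⁻¹ * (φ * mT D * φ⁻¹) * mU D E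
      = ((mU D E)⁻¹ * φ) * mT D * (φ⁻¹ * mU D E) := by group
    _ = (φ * (mU D E)⁻¹) * mT D * (mU D E * φ⁻¹) := by
      rw [h4.inv_left.eq, h4.inv_right.eq]
    _ = _ := by group

theorem mB_pow : mB D x y χ ^ D.r = 1 := by
  have : (mT D : Perm (ZZ P G D.F p)) ^ D.r = 1 := by
    ext1 z
    rw [mT_pow, D.Tr]
    rfl
  rw [mB, conj_pow, this, mul_one, mul_inv_cancel]

theorem mB_apply (z : ZZ P G D.F p) : mB D x y χ z
    = ((z.1.1, z.1.2 * (gm D x y z.2.1 z.2.2.2)⁻¹ * gm D x y z.2.1 (D.T z.2.2.2)), z.2.1,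
      z.2.2.1 - (if z.2.1 = 0 ∧ z.2.2.2 = D.o then
        χ z.1.1 (z.1.2 * (gm D x y z.2.1 z.2.2.2)⁻¹) else 0)
      + (if z.2.1 = 0 ∧ D.T z.2.2.2 = D.o then
        χ z.1.1 (z.1.2 * (gm D x y z.2.1 z.2.2.2)⁻¹) else 0), D.T z.2.2.2) := rfl

theorem mB_inv_apply (z : ZZ P G D.F p) : (mB D x y χ)⁻¹ z
    = ((z.1.1, z.1.2 * (gm D x y z.2.1 z.2.2.2)⁻¹ * gm D x y z.2.1 (D.T⁻¹ z.2.2.2)), z.2.1,
      z.2.2.1 - (if z.2.1 = 0 ∧ z.2.2.2 = D.o then
        χ z.1.1 (z.1.2 * (gm D x y z.2.1 z.2.2.2)⁻¹) else 0)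
      + (if z.2.1 = 0 ∧ D.T⁻¹ z.2.2.2 = D.o then
        χ z.1.1 (z.1.2 * (gm D x y z.2.1 z.2.2.2)⁻¹) else 0), D.T⁻¹ z.2.2.2) := rfl

/-- a conjugate of `B` -/
def cj {H : Type} [Group H] (S B : H) (i : ℕ) : H := (S ^ i)⁻¹ * B * S ^ i

/-- a quotient of two conjugates -/
def aw {H : Type} [Group H] (S B : H) (i : ℕ) : H := (cj S B 1)⁻¹ * cj S B i

theorem map_cj {H K : Type} [Group H] [Group K] (φ : H →* K) (S B : H) (i : ℕ) :
    φ (cj S B i) = cj (φ S) (φ B) i := by simp [cj]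

theorem map_aw {H K : Type} [Group H] [Group K] (φ : H →* K) (S B : H) (i : ℕ) :
    φ (aw S B i) = aw (φ S) (φ B) i := by simp [aw, map_cj]

theorem cj_pow {H : Type} [Group H] (S B : H) (i r : ℕ) (h : B ^ r = 1) : cj S B i ^ r = 1 := by
  have := conj_pow (a := (S ^ i)⁻¹) (b := B) (i := r)
  rw [inv_inv] at this
  rw [cj, this, h, mul_one, inv_mul_cancel]

theorem conj_apply (i : ℕ) (w : P × (ZMod p)ˣ) (a : G) (η : ZMod 2) :
    cj (mS D ν) (mB D x y χ) i ((w, a), 0, η, D.o)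
      = ((w, a * (gm D x y i D.o)⁻¹), 0, η - if (i : ZMod 4) = 0 then
        χ (w.1, w.2 * ν ^ i) (a * (gm D x y i D.o)⁻¹) else 0, D.T D.o) := by
  rw [cj, Perm.mul_apply, Perm.mul_apply, Perm.inv_eq_iff_eq, mS_pow, mS_pow, mB_apply]
  simp [Perm.pow_apply_eq_self_of_apply_eq_self D.ψo,
    Perm.pow_apply_eq_self_of_apply_eq_self D.ψT, D.To, gm]

theorem word_apply (i : ℕ) (w : P × (ZMod p)ˣ) (a : G) :
    aw (mS D ν) (mB D x y χ) i ((w, a), 0, 0, D.o)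
      = ((w, a * (gm D x y i D.o)⁻¹), 0, 0 - if (i : ZMod 4) = 0 then
        χ (w.1, w.2 * ν ^ i) (a * (gm D x y i D.o)⁻¹) else 0, D.o) := by
  rw [aw, Perm.mul_apply, Perm.inv_eq_iff_eq, conj_apply, conj_apply]
  have h0 : ¬ ((1 : ℕ) : ZMod 4) = 0 := by decide
  have h2 : ¬ ((1 : ℕ) : ZMod 4) = 2 := by decide
  have h3 : ¬ ((1 : ℕ) : ZMod 4) = 3 := by decide
  have : gm D x y (1 : ℕ) D.o = 1 := by rw [gm, if_pos rfl, if_neg h2, if_neg h3]
  rw [this, if_neg h0, inv_one, mul_one, sub_zero]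

theorem word_zero (w : P × (ZMod p)ˣ) (a : G) :
    aw (mS D ν) (mB D x y χ) 0 ((w, a), 0, 0, D.o) = ((w, a), 0, 0, D.o) ↔ χ w a = 0 := by
  have : gm D x y (0 : ℕ) D.o = 1 := by rw [gm, if_pos rfl, if_neg (by decide), if_neg (by decide)]
  rw [word_apply, this]
  simp

theorem word_two (w : P × (ZMod p)ˣ) (a : G) :
    aw (mS D ν) (mB D x y χ) 2 ((w, a), 0, 0, D.o) = ((w, a * x⁻¹), 0, 0, D.o) := by
  have : gm D x y (2 : ℕ) D.o = x := by rw [gm, if_pos rfl, if_pos (by decide)]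
  rw [word_apply, this, if_neg (by decide), sub_zero]

theorem word_three (w : P × (ZMod p)ˣ) (a : G) :
    aw (mS D ν) (mB D x y χ) 3 ((w, a), 0, 0, D.o) = ((w, a * y⁻¹), 0, 0, D.o) := by
  have : gm D x y (3 : ℕ) D.o = y := by rw [gm, if_pos rfl, if_neg (by decide), if_pos (by decide)]
  rw [word_apply, this, if_neg (by decide), sub_zero]

/-- the labelling attached to a position function -/
def lab (ℓ : P → G → ZMod p) (μ : (ZMod p)ˣ) (w : P × (ZMod p)ˣ) (a : G) : ZMod 2 :=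
  half (ℓ w.1 a * (μ * w.2⁻¹).val)

end Pool.Agent.Lib.MP_5939ed_al.NT
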